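import Pool.Agent.H500.ME.Stm
import Pool.Graph.R_pool_sql_team_seeded_47a924f7.T6.H23.HK.Edge

/-!
# Hecke characters at the edge (project ME of helper500, part A2)
-/

set_option autoImplicit false

open Filter Topology NumberField IsDedekindDomain Ideal
open Pool.Agent.T6.H23.HK (IsHecke resH cont nonvan nm PP PP_summable ee_prime asIdeal_prime normSys
  two_le_nm coprime_cofinite two_ne_top)
open Pool.Agent.H500.ME (MVe S_MVHe)
open Pool.Agent.Y773 (LI VM TPos)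
open Pool.Agent.Y772.DK (ee LA LI_eq_exp VM_pow VM_of_not VM_le VM_nonneg ee_zero ee_le
  term_summable absNorm_pos' LA_diff)

namespace Pool.Agent.H215.ME.MVHe

/-- a continuous logarithm of a function with a nonzero limit has a limit -/
theorem lim_of_exp (h : ℝ → ℂ) (hc : ContinuousOn h (Set.Ioi 1)) (z0 : ℂ) (hz : z0 ≠ 0)
    (hl : Tendsto (fun s => Complex.exp (h s)) (𝓝[>] 1) (𝓝 z0)) :
    ∃ c, Tendsto h (𝓝[>] 1) (𝓝 c) := by
  obtain ⟨w0, hw0⟩ : ∃ w0, Complex.exp w0 = z0 := ⟨Complex.log z0, Complex.exp_log hz⟩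
  have hu : Tendsto (fun s => Complex.exp (h s - w0)) (𝓝[>] 1) (𝓝 1) := by
    have h1 := hl.div_const z0
    rw [div_self hz] at h1
    refine h1.congr fun s => ?_
    rw [Complex.exp_sub, hw0]
  have hev : ∀ᶠ s in 𝓝[>] (1 : ℝ), Complex.exp (h s - w0) ∈ Complex.slitPlane :=
    hu.eventually (Complex.isOpen_slitPlane.mem_nhds Complex.one_mem_slitPlane)
  obtain ⟨b, hb1, hb⟩ := mem_nhdsGT_iff_exists_Ioo_subset.1 hev
  have hb1' : (1 : ℝ) < b := hb1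
  have hlog : Tendsto (fun s => Complex.log (Complex.exp (h s - w0))) (𝓝[>] 1) (𝓝 0) := by
    have h1 := (continuousAt_clog Complex.one_mem_slitPlane).tendsto.comp hu
    rw [Complex.log_one] at h1
    exact h1
  have hex : ∀ s : ℝ, ∃ n : ℤ, h s - w0 = Complex.log (Complex.exp (h s - w0)) +
      n * (2 * Real.pi * Complex.I) := by
    intro s
    exact Complex.exp_eq_exp_iff_exists_int.1 (Complex.exp_log (Complex.exp_ne_zero _)).symm
  choose n hn using hex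
  have hcn : ContinuousOn n (Set.Ioo 1 b) := by
    rw [Int.isClosedEmbedding_coe_real.isEmbedding.isInducing.continuousOn_iff]
    have h1 : ContinuousOn (fun s => ((h s - w0 - Complex.log (Complex.exp (h s - w0))) /
        (2 * Real.pi * Complex.I)).re) (Set.Ioo 1 b) := by
      refine Complex.continuous_re.comp_continuousOn ?_
      have hc' : ContinuousOn (fun s => h s - w0) (Set.Ioo 1 b) :=
        (hc.mono fun s hs => hs.1).sub continuousOn_const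
      refine ContinuousOn.div_const (hc'.sub ?_) _
      refine ContinuousOn.clog (Complex.continuous_exp.comp_continuousOn hc') fun s hs => hb hs
    refine h1.congr fun s _ => ?_
    beta_reduce
    have h2 : h s - w0 - Complex.log (Complex.exp (h s - w0)) = n s * (2 * Real.pi * Complex.I) := by
      have := hn s
      linear_combination this
    rw [h2, mul_div_assoc, div_self Complex.two_pi_I_ne_zero, mul_one]
    simp
  obtain ⟨s0, hs0⟩ : ∃ s0, s0 ∈ Set.Ioo 1 b := Set.nonempty_Ioo.2 hb1'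
  have hconst : ∀ s ∈ Set.Ioo 1 b, n s = n s0 := fun s hs =>
    isPreconnected_Ioo.constant hcn hs hs0
  refine ⟨0 + n s0 * (2 * Real.pi * Complex.I) + w0, ?_⟩
  have h3 := (hlog.add_const ((n s0 : ℂ) * (2 * Real.pi * Complex.I))).add_const w0
  refine h3.congr' ?_
  filter_upwards [Ioo_mem_nhdsGT hb1'] with s hs
  have h4 := hn s
  rw [hconst s hs] at h4
  linear_combination -h4

variable {K : Type} [Field K] [NumberField K]

/-- the terms of the logarithm -/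
noncomputable def tm (ψ : Ideal (𝓞 K) →*₀ ℂ) (s : ℝ) (𝔞 : Ideal (𝓞 K)) : ℂ :=
  ee ψ 𝔞 * ((absNorm 𝔞 : ℕ) : ℂ) ^ (-(s : ℂ))

theorem cpow_eq (v : HeightOneSpectrum (𝓞 K)) (s : ℝ) : ((absNorm v.asIdeal : ℕ) : ℂ) ^ (-(s : ℂ)) =
    (((absNorm v.asIdeal : ℝ) ^ (-s) : ℝ) : ℂ) := by
  rw [Complex.ofReal_cpow (by positivity)]
  push_cast
  rfl

/-- the logarithm is the sum over the primes and the powers of the primes -/
theorem split (ψ : Ideal (𝓞 K) →*₀ ℂ) (hψ : ∀ 𝔞, ‖ψ 𝔞‖ ≤ 1) {s : ℝ} (hs : 1 < s) :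
    LA (ee ψ) (s : ℂ) = (∑' v : HeightOneSpectrum (𝓞 K),
      ψ v.asIdeal * (((absNorm v.asIdeal : ℝ) ^ (-s) : ℝ) : ℂ)) + ∑' 𝔞 : PP K, tm ψ s 𝔞 := by
  classical
  have hre : 1 < (s : ℂ).re := by simpa using hs
  have hTs : Summable (tm ψ s) := (term_summable (ee_zero ψ) (ee_le ψ hψ) hre).of_norm
  have hLA : LA (ee ψ) (s : ℂ) = ∑' 𝔞, tm ψ s 𝔞 := rfl
  rw [hLA]
  have hinj : Function.Injective (HeightOneSpectrum.asIdeal (R := 𝓞 K)) := fun v w h =>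
    HeightOneSpectrum.ext h
  set P : Set (Ideal (𝓞 K)) := Set.range (HeightOneSpectrum.asIdeal (R := 𝓞 K)) with hP
  have hsplit : ∑' 𝔞, tm ψ s 𝔞 = (∑' 𝔞 : P, tm ψ s 𝔞) + ∑' 𝔞 : (Pᶜ : Set (Ideal (𝓞 K))), tm ψ s 𝔞 :=
    (hTs.subtype P).tsum_add_tsum_compl (hTs.subtype Pᶜ) |>.symm
  have h1 : ∑' 𝔞 : P, tm ψ s 𝔞 = ∑' v : HeightOneSpectrum (𝓞 K), tm ψ s v.asIdeal :=
    tsum_range (tm ψ s) hinj
  have h2 : ∑' v : HeightOneSpectrum (𝓞 K), tm ψ s v.asIdeal = ∑' v : HeightOneSpectrum (𝓞 K),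
      ψ v.asIdeal * (((absNorm v.asIdeal : ℝ) ^ (-s) : ℝ) : ℂ) := by
    refine tsum_congr fun v => ?_
    unfold tm
    rw [ee_prime, cpow_eq]
  rw [hsplit, h1, h2]
  congr 1
  have hR : ∀ 𝔞 : Ideal (𝓞 K), 𝔞 ∉ P → 𝔞 ∉ PP K → tm ψ s 𝔞 = 0 := by
    intro 𝔞 h3 h4
    unfold tm
    by_cases h5 : IsPrimePow 𝔞
    · exfalso
      have h6 : Prime 𝔞 := by
        by_contra h6
        exact h4 ⟨h5, h6⟩
      exact h3 ⟨⟨𝔞, isPrime_of_prime h6, h6.ne_zero⟩, rfl⟩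
    · unfold ee
      rw [VM_of_not h5, zero_div, Complex.ofReal_zero, zero_mul, zero_mul]
  have hsub : PP K ⊆ Pᶜ := by
    rintro 𝔞 h3 ⟨v, rfl⟩
    exact h3.2 (asIdeal_prime v)
  rw [tsum_subtype, tsum_subtype]
  refine tsum_congr fun 𝔞 => ?_
  by_cases h6 : 𝔞 ∈ PP K
  · rw [Set.indicator_of_mem h6, Set.indicator_of_mem (hsub h6)]
  · rw [Set.indicator_of_notMem h6]
    by_cases h7 : 𝔞 ∈ Pᶜ
    · rw [Set.indicator_of_mem h7, hR 𝔞 h7 h6]
    · rw [Set.indicator_of_notMem h7]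

/-- the sum over the powers of the primes has a limit -/
theorem PP_lim (ψ : Ideal (𝓞 K) →*₀ ℂ) (hψ : ∀ 𝔞, ‖ψ 𝔞‖ ≤ 1) :
    Tendsto (fun s : ℝ => ∑' 𝔞 : PP K, tm ψ s 𝔞) (𝓝[>] 1) (𝓝 (∑' 𝔞 : PP K, tm ψ 1 𝔞)) := by
  refine tendsto_tsum_of_dominated_convergence PP_summable (fun 𝔞 => ?_) ?_
  · have h𝔞 : 𝔞.1 ≠ 0 := 𝔞.2.1.ne_zero
    have h0 : ((absNorm 𝔞.1 : ℕ) : ℂ) ≠ 0 := by
      exact_mod_cast (absNorm_pos' h𝔞).ne'
    have hc : Continuous fun s : ℝ => tm ψ s 𝔞.1 := by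
      unfold tm
      refine continuous_const.mul ?_
      refine Continuous.const_cpow (by fun_prop) (Or.inl h0)
    exact (hc.tendsto 1).mono_left nhdsWithin_le_nhds
  · filter_upwards [self_mem_nhdsWithin] with s hs 𝔞
    have hs1 : (1 : ℝ) < s := hs
    have h𝔞 : 𝔞.1 ≠ 0 := 𝔞.2.1.ne_zero
    have h8 := absNorm_pos' h𝔞
    have h9 : (1 : ℝ) ≤ absNorm 𝔞.1 := by exact_mod_cast h8
    unfold tm
    rw [norm_mul, Complex.norm_natCast_cpow_of_pos h8]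
    calc ‖ee ψ 𝔞.1‖ * (absNorm 𝔞.1 : ℝ) ^ (-(s : ℂ)).re
        ≤ 1 * (absNorm 𝔞.1 : ℝ) ^ (-1 : ℝ) := by
          refine mul_le_mul (ee_le ψ hψ _) ?_ (by positivity) zero_le_one
          refine Real.rpow_le_rpow_of_exponent_le h9 ?_
          simp
          exact hs1.le
      _ = _ := by rw [one_mul, Real.rpow_neg_one]

/-- changing finitely many terms -/
theorem MVe_congr {F G : HeightOneSpectrum (𝓞 K) → ℂ} {B : ℝ} (hF : ∀ v, ‖F v‖ ≤ B)
    (hG : ∀ v, ‖G v‖ ≤ B) (hFG : ∀ᶠ v in cofinite, F v = G v) {r : ℂ} (h : MVe F r) : MVe G r := by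
  classical
  have hfin : {v | F v ≠ G v}.Finite := hFG
  obtain ⟨c, hc⟩ := h
  have hsum : ∀ (H : HeightOneSpectrum (𝓞 K) → ℂ), (∀ v, ‖H v‖ ≤ B) → ∀ s : ℝ, 1 < s →
      Summable fun v : HeightOneSpectrum (𝓞 K) =>
        H v * (((absNorm v.asIdeal : ℝ) ^ (-s) : ℝ) : ℂ) := by
    intro H hH s hs
    have h1 : Summable fun v : HeightOneSpectrum (𝓞 K) => B * (nm K v : ℝ) ^ (-s) :=
      (normSys.summable (-s) (by linarith)).mul_left B
    refine Summable.of_norm_bounded h1 fun v => ?_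
    rw [norm_mul, Complex.norm_real, Real.norm_of_nonneg (by positivity)]
    exact mul_le_mul_of_nonneg_right (hH v) (by positivity)
  have hd : Tendsto (fun s : ℝ => ∑ v ∈ hfin.toFinset,
      (G v - F v) * (((absNorm v.asIdeal : ℝ) ^ (-s) : ℝ) : ℂ)) (𝓝[>] 1)
      (𝓝 (∑ v ∈ hfin.toFinset, (G v - F v) * (((absNorm v.asIdeal : ℝ) ^ (-(1 : ℝ)) : ℝ) : ℂ))) := by
    refine tendsto_finsetSum _ fun v _ => ?_
    have h0 : (0 : ℝ) < absNorm v.asIdeal := by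
      have h2 : 2 ≤ nm K v := two_le_nm v
      have h3 : 0 < absNorm v.asIdeal := lt_of_lt_of_le two_pos h2
      exact_mod_cast h3
    have hcont : Continuous fun s : ℝ => (G v - F v) *
        (((absNorm v.asIdeal : ℝ) ^ (-s) : ℝ) : ℂ) := by
      refine continuous_const.mul (Complex.continuous_ofReal.comp ?_)
      exact Continuous.rpow continuous_const continuous_neg fun _ => Or.inl h0.ne'
    exact (hcont.tendsto 1).mono_left nhdsWithin_le_nhds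
  refine ⟨_, (hc.add hd).congr' ?_⟩
  filter_upwards [self_mem_nhdsWithin] with s hs
  have hs1 : (1 : ℝ) < s := hs
  have h1 : (∑' v : HeightOneSpectrum (𝓞 K), G v * (((absNorm v.asIdeal : ℝ) ^ (-s) : ℝ) : ℂ)) -
      (∑' v : HeightOneSpectrum (𝓞 K), F v * (((absNorm v.asIdeal : ℝ) ^ (-s) : ℝ) : ℂ)) =
      ∑ v ∈ hfin.toFinset, (G v - F v) * (((absNorm v.asIdeal : ℝ) ^ (-s) : ℝ) : ℂ) := by
    rw [← (hsum G hG s hs1).tsum_sub (hsum F hF s hs1), tsum_eq_sum (s := hfin.toFinset)]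
    · exact Finset.sum_congr rfl fun v _ => by ring
    · intro v hv
      rw [Set.Finite.mem_toFinset] at hv
      have : F v = G v := by
        by_contra h
        exact hv h
      rw [this, sub_self]
  linear_combination -h1

/-- the edge for a nontrivial character of modulus `≠ 1` -/
theorem aux {𝔪 : Ideal (𝓞 K)} {k : InfinitePlace K → ℤ} {ν : InfinitePlace K → ℝ}
    {ψ : Ideal (𝓞 K) →*₀ ℂ} (h : IsHecke 𝔪 k ν ψ) (hm : 𝔪 ≠ ⊤)
    (hn : ∃ 𝔮 : Ideal (𝓞 K), 𝔮 ≠ ⊥ ∧ IsCoprime 𝔮 𝔪 ∧ ψ 𝔮 ≠ 1) :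
    MVe (fun v : HeightOneSpectrum (𝓞 K) => ψ v.asIdeal) 0 := by
  obtain ⟨F, hF, hFL⟩ := cont h hm hn
  have h1 := nonvan h hm hF hFL
  have hψ := h.norm_le
  have hc : ContinuousOn (fun s : ℝ => LA (ee ψ) (s : ℂ)) (Set.Ioi 1) := by
    intro s hs
    have hs1 : 1 < (s : ℂ).re := by simpa using hs
    have h2 := (LA_diff (ee_zero ψ) (ee_le ψ hψ) hs1).1.continuousAt
    exact (ContinuousAt.comp (f := fun s : ℝ => (s : ℂ)) h2
      Complex.continuous_ofReal.continuousAt).continuousWithinAt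
  have hl : Tendsto (fun s : ℝ => Complex.exp (LA (ee ψ) (s : ℂ))) (𝓝[>] 1) (𝓝 (F 1)) := by
    have hof : Tendsto (fun s : ℝ => (s : ℂ)) (𝓝[>] 1) (𝓝 1) := by
      have := Complex.continuous_ofReal.tendsto 1
      rw [Complex.ofReal_one] at this
      exact this.mono_left nhdsWithin_le_nhds
    have h2 : Tendsto (fun s : ℝ => F (s : ℂ)) (𝓝[>] 1) (𝓝 (F 1)) :=
      hF.continuousAt.tendsto.comp hof
    refine h2.congr' ?_
    filter_upwards [hof.eventually hFL, self_mem_nhdsWithin] with s h3 h4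
    have hs1 : 1 < (s : ℂ).re := by simpa using h4
    rw [h3 hs1, LI_eq_exp ψ hψ hs1]
  obtain ⟨c, hcl⟩ := lim_of_exp _ hc (F 1) h1 hl
  refine ⟨c - ∑' 𝔞 : PP K, tm ψ 1 𝔞, ?_⟩
  refine (hcl.sub (PP_lim ψ hψ)).congr' ?_
  filter_upwards [self_mem_nhdsWithin] with s hs
  rw [split ψ hψ hs]
  ring

theorem main0 (K : Type) [Field K] [NumberField K] (𝔪 : Ideal (𝓞 K))
    (k : InfinitePlace K → ℤ) (ν : InfinitePlace K → ℝ) (ψ : Ideal (𝓞 K) →*₀ ℂ)
    (h : IsHecke 𝔪 k ν ψ)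
    (hn : ¬ ∀ᶠ v : HeightOneSpectrum (𝓞 K) in cofinite, ψ v.asIdeal = 1) :
    MVe (fun v : HeightOneSpectrum (𝓞 K) => ψ v.asIdeal) 0 := by
  classical
  set 𝔫 : Ideal (𝓞 K) := Ideal.span {(2 : 𝓞 K)} with h𝔫
  have h𝔫0 : 𝔫 ≠ ⊥ := by
    rw [h𝔫, Ne, Ideal.span_singleton_eq_bot]
    norm_num
  have h' := h.res h𝔫0
  have hmt : 𝔪 * 𝔫 ≠ ⊤ := by
    intro h4
    exact two_ne_top (K := K) (top_le_iff.1 (h4 ▸ Ideal.mul_le_right))
  have hval : ∀ v : HeightOneSpectrum (𝓞 K), IsCoprime v.asIdeal (𝔪 * 𝔫) →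
      resH 𝔫 ψ v.asIdeal = ψ v.asIdeal := fun v hv =>
    if_pos (IsCoprime.mul_right_iff.1 hv).2
  have hco := coprime_cofinite (mul_ne_zero h.ne_bot h𝔫0)
  have hex : ∃ 𝔮 : Ideal (𝓞 K), 𝔮 ≠ ⊥ ∧ IsCoprime 𝔮 (𝔪 * 𝔫) ∧ resH 𝔫 ψ 𝔮 ≠ 1 := by
    by_contra hcon
    push Not at hcon
    apply hn
    filter_upwards [hco] with v hv
    rw [← hval v hv]
    exact hcon v.asIdeal v.ne_bot hv
  refine MVe_congr (B := 1) (fun v => h'.norm_le _) (fun v => h.norm_le _) ?_ (aux h' hmt hex)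
  filter_upwards [hco] with v hv
  exact hval v hv

theorem main : S_MVHe := fun K _ _ 𝔪 k ν ψ h hn => main0 K 𝔪 k ν ψ h hn

end Pool.Agent.H215.ME.MVHe
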